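import Pool.Agent.E8helper43.ER.Ext

set_option autoImplicit false

/-!
# One-point extensions of Ramsey sets: points above the convex hull

Let `X` be any Ramsey set in `ℝ^d`, on a sphere with centre `c` and radius `ρ`. Then `X` together with
a point `(p, h)` of `ℝ^(d+1)` is Ramsey (for every number of colours) as soon as the projection `p`
lies in the convex hull of `X` and the distance of `(p, h)` from `c` is at least `ρ`; in particular
for all `p` in the convex hull and all heights `h ≥ ρ`.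

More generally, the set of all `(p, ‖p‖² + h²)` for which `X` together with `(p, h)` is Ramsey is
convex and closed upwards.
-/

namespace Pool.Agent.E8helper43.Moved.AboveTheHullH43

open Pool.Agent.E8helper43.ER

/-- the set `S` is Ramsey: for every number `r` of colours there is an `N` such that for every
colouring of `ℝ^N` with `r` colours there is a monochromatic copy of `S` -/
def Ramsey {m : ℕ} (S : Set (EuclideanSpace ℝ (Fin m))) : Prop :=
  ∀ r : ℕ, ∃ N : ℕ, ∀ c : EuclideanSpace ℝ (Fin N) → Fin r,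
    ∃ g : S → EuclideanSpace ℝ (Fin N), Isometry g ∧ ∀ x y : S, c (g x) = c (g y)

/-- the set `X × {0} ∪ {(p, h)}` in `ℝ^(d+1)` -/
def withPoint {d : ℕ} (X : Set (EuclideanSpace ℝ (Fin d))) (p : EuclideanSpace ℝ (Fin d)) (h : ℝ) :
    Set (EuclideanSpace ℝ (Fin (d + 1))) :=
  {y | ∃ x ∈ X, (∀ i : Fin d, y (Fin.castSucc i) = x i) ∧ y (Fin.last d) = 0} ∪
    {y | (∀ i : Fin d, y (Fin.castSucc i) = p i) ∧ y (Fin.last d) = h}

/-- the point `(p, h)` -/
noncomputable def pt {d : ℕ} (p : Eu d) (h : ℝ) : Eu (d + 1) :=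
  WithLp.toLp 2 (Fin.snoc (fun i => p i) h)

theorem pt_last {d : ℕ} (p : Eu d) (h : ℝ) : pt p h (Fin.last d) = h := by
  show Fin.snoc (α := fun _ => ℝ) (fun i => p i) h (Fin.last d) = h
  rw [Fin.snoc_last]

theorem pt_castSucc {d : ℕ} (p : Eu d) (h : ℝ) (i : Fin d) : pt p h (Fin.castSucc i) = p i := by
  show Fin.snoc (α := fun _ => ℝ) (fun i => p i) h (Fin.castSucc i) = p i
  rw [Fin.snoc_castSucc]

theorem pro_pt {d : ℕ} (p : Eu d) (h : ℝ) : pro (pt p h) = p := by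
  ext i
  rw [pro_apply, pt_castSucc]

theorem withPoint_eq {d : ℕ} (X : Set (Eu d)) (p : Eu d) (h : ℝ) :
    withPoint X p h = ext X (pt p h) := by
  ext y
  constructor
  · rintro (⟨x, hx, h1, h2⟩ | ⟨h1, h2⟩)
    · exact Or.inl ⟨h2, x, hx, h1⟩
    · refine Or.inr ?_
      show y = pt p h
      ext i
      refine Fin.lastCases ?_ (fun j => ?_) i
      · rw [pt_last, h2]
      · rw [pt_castSucc, h1]
  · rintro (⟨h2, x, hx, h1⟩ | h1)
    · exact Or.inl ⟨x, hx, h1, h2⟩
    · rw [Set.mem_singleton_iff] at h1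
      subst h1
      exact Or.inr ⟨pt_castSucc p h, pt_last p h⟩

theorem pt_norm {d : ℕ} (p : Eu d) (h : ℝ) : ‖pt p h‖ ^ 2 = ‖p‖ ^ 2 + h ^ 2 := by
  rw [nsq, nsq, Fin.sum_univ_castSucc, pt_last]
  simp only [pt_castSucc]

theorem pt_dist {d : ℕ} (p c : Eu d) (h : ℝ) :
    dist (pt p h) (inc c) ^ 2 = dist p c ^ 2 + h ^ 2 := by
  rw [dist_sq, dist_sq, Fin.sum_univ_castSucc, pt_last, inc_last, sub_zero]
  simp only [pt_castSucc, inc_castSucc]

/-- Let `X` be a Ramsey set in `ℝ^d`.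

(1) If `X` lies on the sphere with centre `c` and radius `ρ`, then `X × {0} ∪ {(p, h)}` is Ramsey for
all `p` in the convex hull of `X` and all `h` with `‖p - c‖² + h² ≥ ρ²`.

(2) Suppose that `X × {0} ∪ {(p_j, h_j)}` is Ramsey for `j < m`, and let `w_j ≥ 0` be weights with sum
`1` and `p = ∑ w_j p_j`. Then `X × {0} ∪ {(p, h)}` is Ramsey for all `h` with
`‖p‖² + h² ≥ ∑ w_j (‖p_j‖² + h_j²)`. -/
theorem result (d : ℕ) (X : Set (EuclideanSpace ℝ (Fin d))) (hX : X.Finite) (hR : Ramsey X) :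
    (∀ (c : EuclideanSpace ℝ (Fin d)) (ρ : ℝ), (∀ x ∈ X, dist x c = ρ) →
      ∀ p ∈ convexHull ℝ X, ∀ h : ℝ, ρ ^ 2 ≤ dist p c ^ 2 + h ^ 2 → Ramsey (withPoint X p h)) ∧
    (∀ (m : ℕ) (w : Fin m → ℝ) (p : Fin m → EuclideanSpace ℝ (Fin d)) (h : Fin m → ℝ),
      (∀ j, 0 ≤ w j) → ∑ j, w j = 1 → (∀ j, Ramsey (withPoint X (p j) (h j))) →
      ∀ h' : ℝ, ∑ j, w j * (‖p j‖ ^ 2 + h j ^ 2) ≤ ‖∑ j, w j • p j‖ ^ 2 + h' ^ 2 →
        Ramsey (withPoint X (∑ j, w j • p j) h')) := by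
  refine ⟨?_, ?_⟩
  · intro c ρ hc p hp h hh
    rw [withPoint_eq]
    refine sphere_case hX hR c ρ hc (pt p h) (by rw [pro_pt]; exact hp) ?_
    refine le_of_sq_le_sq ?_ dist_nonneg
    rw [pt_dist]
    exact hh
  · intro m w p h hw hw1 hj h' hh
    rw [withPoint_eq]
    refine convexity hX w (fun j => pt (p j) (h j)) hw hw1 (fun j => ?_) (pt (∑ j, w j • p j) h') ?_ ?_
    · rw [← withPoint_eq]
      exact hj j
    · simp only [pro_pt]
    · simp only [pt_norm]
      exact hh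

end Pool.Agent.E8helper43.Moved.AboveTheHullH43
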