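import Pool.Agent.E8helper43.BE.MatMain

set_option autoImplicit false

/-!
# Buchsbaum-Eisenbud-Horrocks for equivariant modules on spaces of matrices

Let `S` be a commutative algebra over `ℂ` with elements `f_xy`, `x ≤ a`, `y ≤ b`, which form a
regular sequence (row by row) such that `e = dim_ℂ S / (f)` is finite (for example `e = 1` for the
variables of the coordinate ring of the space of `a × b` matrices, or for a regular system of
parameters of a regular local ring with coefficient field `ℂ`), and let `M ≠ 0` be an `S`-module of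
finite dimension over `ℂ`. Suppose that `M`, regarded as a module over `ℂ[f_xy]`, has commuting
compatible actions of the Lie algebras `gl_a` and `gl_b`, which act on the span of the `f_xy` as on
`ℂ^a ⊗ ℂ^b`. (The ring `S` and the resolution need not have any symmetry.) The actions are assumed
to be unitary for some scalar product on `M`, as is every action which comes from an algebraic
action of the group `GL_a × GL_b` (Weyl).

Then `binom(a b, i) ≤ e · rank F_i` for every resolution `F` of `M` by finite free `S`-modules and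
every `i`. (The torus of `GL_a × GL_b` acts on `ℂ^a ⊗ ℂ^b` through a torus of dimension
`a + b - 1` only.)
-/

namespace Pool.Agent.E8helper43.Moved.MatrixSpacesH43

open Pool.Agent.E8helper43.BE Pool.Agent.Y577.BT

universe v w

/-- the entries of a matrix, row by row -/
def rows {S : Type w} {a b : ℕ} (f : Fin a → Fin b → S) : Fin (a * b) → S :=
  fun i => f (finProdFinEquiv.symm i).1 (finProdFinEquiv.symm i).2

/-- a representation of the Lie algebra of all `n × n` matrices which takes adjoint matrices to
adjoint operators -/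
structure UnitaryRep {n : ℕ} {M : Type v} [NormedAddCommGroup M] [InnerProductSpace ℂ M]
    (ρ : Matrix (Fin n) (Fin n) ℂ →ₗ[ℂ] M →ₗ[ℂ] M) : Prop where
  lie : ∀ (A B : Matrix (Fin n) (Fin n) ℂ) (m : M),
    ρ (A * B - B * A) m = ρ A (ρ B m) - ρ B (ρ A m)
  adj : ∀ (A : Matrix (Fin n) (Fin n) ℂ) (m m' : M),
    inner ℂ (ρ A m) m' = inner ℂ m (ρ A.conjTranspose m')

theorem result (S : Type w) [CommRing S] [Algebra ℂ S] (a b : ℕ)
    (f : Fin a → Fin b → S) (hreg : RegularSeq (rows f))
    [Module.Finite ℂ (S ⧸ Ideal.span (Set.range (rows f)))]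
    (M : Type v) [NormedAddCommGroup M] [InnerProductSpace ℂ M] [FiniteDimensional ℂ M]
    [Nontrivial M] [Module S M] [IsScalarTower ℂ S M]
    -- the actions of `gl_a` and `gl_b`
    (ρ : Matrix (Fin a) (Fin a) ℂ →ₗ[ℂ] M →ₗ[ℂ] M) (hρ : UnitaryRep ρ)
    (σ : Matrix (Fin b) (Fin b) ℂ →ₗ[ℂ] M →ₗ[ℂ] M) (hσ : UnitaryRep σ)
    (hρσ : ∀ A B m, ρ A (σ B m) = σ B (ρ A m))
    (hρf : ∀ (A : Matrix (Fin a) (Fin a) ℂ) (x : Fin a) (y : Fin b) (m : M),
      ρ A (f x y • m) = f x y • ρ A m + ∑ u : Fin a, A u x • f u y • m)
    (hσf : ∀ (B : Matrix (Fin b) (Fin b) ℂ) (x : Fin a) (y : Fin b) (m : M),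
      σ B (f x y • m) = f x y • σ B m + ∑ v : Fin b, B v y • f x v • m)
    (R : FreeRes S M) (i : ℕ) :
    (a * b).choose i ≤ Module.finrank ℂ (S ⧸ Ideal.span (Set.range (rows f))) * R.rank i := by
  have hix : ∀ (x : Fin a) (y : Fin b), rows f (ix x y) = f x y := by
    intro x y
    have h1 := rw_ix x y
    have h2 := cl_ix x y
    unfold rw' at h1
    unfold cl' at h2
    unfold rows
    rw [h1, h2]
  refine mat_main S a b (rows f) hreg M ρ σ hρ.lie hσ.lie hρσ ?_ ?_ hρ.adj hσ.adj R i
  · intro A x y m
    simp only [hix]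
    exact hρf A x y m
  · intro B x y m
    simp only [hix]
    exact hσf B x y m

end Pool.Agent.E8helper43.Moved.MatrixSpacesH43
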